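import Pool.Agent.N207.AX.Stm

/-!
# Ax's theorem for elliptic curves and exponentials in several variables
-/

set_option autoImplicit false

open Filter Topology Set

noncomputable section

namespace Pool.Agent.N945.AX

open Pool.Agent.N207.AX Pool.Agent.Y776.Cv
open Pool.Agent.TH813.G (NoHom)
open Pool.Agent.Y124 (LocInd)

variable {X : Type} [Fintype X]

/-- the functions are analytic -/
theorem ye_an {q n s : ℕ} {U : Set (X → ℂ)} {Λ : Fin q → PeriodPair} {ty : Fin n → Fin q}
    {u : Fin n → (X → ℂ) → ℂ} {l : Fin s → (X → ℂ) → ℂ} (ua : ∀ i, AnalyticOnNhd ℂ (u i) U)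
    (un : ∀ i, ∀ z ∈ U, u i z ∉ (Λ (ty i)).lattice) (la : ∀ k, AnalyticOnNhd ℂ (l k) U)
    (i : Nf n s) : AnalyticOnNhd ℂ (ye Λ ty u l i) U := by
  rcases i with k | k | i | i | i
  · exact la k
  · exact fun z hz => (la k z hz).cexp
  · exact ua i
  · intro z hz
    have h1 := ((H667R3.differentiableOn_zeta (Λ (ty i))).analyticOnNhd
      (H667R3.isOpen_compl (Λ (ty i)))) (u i z) (un i z hz)
    exact AnalyticAt.comp (g := H667R3.zeta (Λ (ty i))) (f := u i) h1 (ua i z hz)
  · intro z hz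
    have h1 := (Λ (ty i)).analyticOnNhd_weierstrassP (u i z) (un i z hz)
    exact AnalyticAt.comp (g := (Λ (ty i)).weierstrassP) (f := u i) h1 (ua i z hz)

/-- countably many multipliers -/
theorem mult_countable (L : PeriodPair) :
    {x : ℂ | ∀ w ∈ L.lattice, x * w ∈ L.lattice}.Countable := by
  have h1 : ((L.lattice : Set ℂ)).Countable :=
    Set.countable_coe_iff.1 (inferInstance : Countable L.lattice)
  have h2 : ((fun x : ℂ => x * L.ω₁) ⁻¹' (L.lattice : Set ℂ)).Countable :=
    h1.preimage (mul_left_injective₀ (Pool.Agent.W245.EB.ω₁_ne_zero L))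
  exact h2.mono fun x hx => hx _ L.ω₁_mem_lattice

/-- a line in the domain -/
theorem line_an {U : Set (X → ℂ)} {g : (X → ℂ) → ℂ} (hg : AnalyticOnNhd ℂ g U) (x v : X → ℂ)
    {D : Set ℂ} (hD : ∀ τ ∈ D, x + τ • v ∈ U) :
    AnalyticOnNhd ℂ (fun τ : ℂ => g (x + τ • v)) D := by
  intro τ hτ
  have h1 : AnalyticAt ℂ (fun τ : ℂ => x + τ • v) τ :=
    analyticAt_const.add (analyticAt_id.smul analyticAt_const)
  exact AnalyticAt.comp (g := g) (f := fun τ : ℂ => x + τ • v) (hg _ (hD τ hτ)) h1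

/-- no functions -/
theorem locInd_empty (f : Fin 0 → ℂ → ℂ) (t0 : ℂ) : LocInd f t0 := by
  intro P hP
  obtain ⟨W, hW, hWo, ht⟩ := eventually_nhds_iff.1 hP
  have hinf : W.Infinite := by
    have := (hWo.mem_nhds ht)
    exact infinite_of_mem_nhds t0 this
  refine MvPolynomial.funext_set (fun _ => W) (fun _ => hinf) fun x hx => ?_
  rw [map_zero]
  have h1 := hW (x none) (hx none (Set.mem_univ _))
  have h2 : (fun o : Option (Fin 0) => o.elim (x none) fun y => f y (x none)) = x := by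
    funext o
    rcases o with _ | o
    · rfl
    · exact Fin.elim0 o
  rw [h2] at h1
  exact h1

theorem ell (hI : StmInd) : StmEll := by
  intro X _ q n s U Λ ty u l hU hc hne ni ua un ui la li
  classical
  let κ₁ : Type := {a : Fin n → ℂ // a ≠ 0 ∧ ∃ c, (∀ i, ∀ w ∈ (Λ c).lattice, a i * w ∈ (Λ c).lattice) ∧
    ∀ i, ty i ≠ c → a i = 0}
  let κ₂ : Type := {m : Fin s → ℤ // m ≠ 0}
  have hκ₁ : Countable κ₁ := by
    have h1 : {a : Fin n → ℂ | a ≠ 0 ∧ ∃ c, (∀ i, ∀ w ∈ (Λ c).lattice, a i * w ∈ (Λ c).lattice) ∧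
        ∀ i, ty i ≠ c → a i = 0}.Countable := by
      refine (Set.countable_iUnion fun c => Set.countable_univ_pi
        (fun _ : Fin n => mult_countable (Λ c))).mono ?_
      rintro a ⟨-, c, h2, -⟩
      exact mem_iUnion.2 ⟨c, fun i _ => h2 i⟩
    exact h1.to_subtype
  have hκ₂ : Countable κ₂ := Subtype.countable
  let k : κ₁ ⊕ κ₂ → (X → ℂ) → ℂ := Sum.elim (fun a z => ∑ i, a.1 i * u i z)
    (fun m z => ∑ k, (m.1 k : ℂ) * l k z)
  have hk : ∀ i, AnalyticOnNhd ℂ (k i) U := by
    rintro (a | m)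
    · exact fun z hz => Finset.analyticAt_fun_sum _ fun i _ => analyticAt_const.mul (ua i z hz)
    · exact fun z hz => Finset.analyticAt_fun_sum _ fun i _ => analyticAt_const.mul (la i z hz)
  refine hI X (Nf n s) PEmpty (κ₁ ⊕ κ₂) (s + 2 * n) U hU hc hne (ye Λ ty u l) (ye_an ua un la)
    (fun i => i.elim) k (fun i => i.elim) hk (fun i => i.elim) ?_ ?_
  · rintro (a | m) c
    · by_contra hcon
      push Not at hcon
      obtain ⟨h0, c', h1, h2⟩ := a.2
      exact h0 (ui c' a.1 c h1 h2 hcon)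
    · by_contra hcon
      push Not at hcon
      exact m.2 (li m.1 c hcon)
  · intro x hx v D hDo hDc h0 hD _ hder
    have hconst : ∀ (i : κ₁ ⊕ κ₂) (b : ℂ), ¬ ∀ τ ∈ D, k i (x + τ • v) = b := by
      intro i b hb
      apply hder i
      have h1 : (fun τ : ℂ => k i (x + τ • v)) =ᶠ[𝓝 0] fun _ => b := by
        filter_upwards [hDo.mem_nhds h0] with τ hτ using hb τ hτ
      rw [h1.deriv_eq, deriv_const]
    have hF : FxM D Λ ty (fun i τ => u i (x + τ • v)) (fun k τ => l k (x + τ • v)) :=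
      { isOpen := hDo
        conn := hDc
        ni := ni
        ua := fun i => line_an (ua i) x v hD
        un := fun i τ hτ => un i _ (hD τ hτ)
        ui := by
          intro c a b h1 h2 h3
          by_contra ha
          exact hconst (Sum.inl ⟨a, ha, c, h1, h2⟩) b h3
        la := fun k => line_an (la k) x v hD
        li := by
          intro m b h3
          by_contra hm
          exact hconst (Sum.inr ⟨m, hm⟩) b h3 }
    have hye : ∀ (i : Nf n s) (τ : ℂ), ye Λ ty u l i (x + τ • v) =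
        yf Λ ty (fun i τ => u i (x + τ • v)) (fun k τ => l k (x + τ • v)) i τ := by
      rintro (k | k | i | i | i) τ <;> rfl
    rcases Nat.eq_zero_or_pos (s + n) with hsn | hsn
    · obtain ⟨rfl, rfl⟩ : s = 0 ∧ n = 0 := by omega
      exact ⟨fun i => Fin.elim0 i, fun i => Fin.elim0 i, locInd_empty _ 0⟩
    · obtain ⟨e, he, h1⟩ := fix_sub hF hsn ⟨0, h0⟩
      refine ⟨e, he, ?_⟩
      have h2 := h1 0 h0
      have h3 : (fun j (τ : ℂ) => ye Λ ty u l (e j) (x + τ • v)) = fun k =>
          yf Λ ty (fun i τ => u i (x + τ • v)) (fun k τ => l k (x + τ • v)) (e k) := by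
        funext j τ
        exact hye (e j) τ
      rw [h3]
      exact h2

end Pool.Agent.N945.AX
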